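import Pool.Agent.Lib_helper96.RatU.Ex

/-!
The cases (18, 8) and (19, 8): `x_n x_(n-3) = a + x_(n-1) + 8 x_(n-4)`.  The terms of even index
`e_m` satisfy `4 e_m ≤ e_(m+3) ≤ 16 e_m`, those of odd index are about `e_m / e_(m-1)`.
-/

set_option autoImplicit false

namespace Pool.Agent.RatRec

namespace Alt

/-- One step: `e` are the even terms, `o` the odd ones. -/
lemma step {a e0 e1 e2 e3 e4 o0 o1 o2 o3 : ℝ} (ha0 : 0 ≤ a) (ha1 : a ≤ 1) (h1 : 1 ≤ e1)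
    (h2 : 1 ≤ e2) (h3 : 1 ≤ e3) (he0 : 0 ≤ e0) (ho2 : 0 < o2) (ho0 : 0 ≤ o0) (ho1 : 0 ≤ o1)
    (q1 : 8 * e1 ≤ e0 ^ 2) (q2 : 8 * e2 ≤ e1 ^ 2) (q3 : 8 * e3 ≤ e2 ^ 2) (r : 4 * e0 ≤ e3)
    (l0 : a + 8 * o0 ≤ e2) (l1 : a + 8 * o1 ≤ e3)
    (R2 : o2 * e1 = a + e2 + 8 * o0) (R3 : o3 * e2 = a + e3 + 8 * o1)
    (R4 : e4 * o2 = a + o3 + 8 * e2) :
    1 ≤ e4 ∧ 8 * e4 ≤ e3 ^ 2 ∧ 4 * e1 ≤ e4 ∧ a + 8 * o2 ≤ e4 := by
  have p1 : 0 < e1 := by linarith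
  have p2 : 0 < e2 := by linarith
  have p3 : 0 < e3 := by linarith
  -- bounds of the odd terms
  have u2 : o2 * e1 ≤ 2 * e2 := by linarith
  have l2 : e2 ≤ o2 * e1 := by linarith
  have u3 : o3 ≤ e2 / 4 := by
    have h : o3 * e2 ≤ (e2 / 4) * e2 := by nlinarith
    exact le_of_mul_le_mul_right h p2
  have v2 : o2 ≤ e1 / 4 := by
    have h : o2 * e1 ≤ (e1 / 4) * e1 := by nlinarith
    exact le_of_mul_le_mul_right h p1
  have ho3 : 0 ≤ o3 := by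
    have h : 0 ≤ o3 * e2 := by rw [R3]; linarith
    exact nonneg_of_mul_nonneg_left h p2
  -- the new even term
  have m1 : 4 * e1 ≤ e4 := by
    have h : (4 * e1) * o2 ≤ e4 * o2 := by rw [R4]; nlinarith
    exact le_of_mul_le_mul_right h ho2
  have m2 : e4 ≤ 16 * e1 := by
    have h : e4 * o2 ≤ (16 * e1) * o2 := by rw [R4]; nlinarith
    exact le_of_mul_le_mul_right h ho2
  refine ⟨by linarith, ?_, m1, by linarith⟩
  have h5 : (4 * e0) ^ 2 ≤ e3 ^ 2 := pow_le_pow_left₀ (by linarith) r 2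
  nlinarith

/-- The state. -/
structure Q (a : ℝ) (x : ℕ → ℝ) (m : ℕ) : Prop where
  e0 : 1 ≤ x (2 * m)
  e1 : 1 ≤ x (2 * m + 2)
  e2 : 1 ≤ x (2 * m + 4)
  e3 : 1 ≤ x (2 * m + 6)
  q1 : 8 * x (2 * m + 2) ≤ x (2 * m) ^ 2
  q2 : 8 * x (2 * m + 4) ≤ x (2 * m + 2) ^ 2
  q3 : 8 * x (2 * m + 6) ≤ x (2 * m + 4) ^ 2
  r : 4 * x (2 * m) ≤ x (2 * m + 6)
  l0 : a + 8 * x (2 * m + 1) ≤ x (2 * m + 4)
  l1 : a + 8 * x (2 * m + 3) ≤ x (2 * m + 6)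

lemma Q.next {a : ℝ} (ha0 : 0 ≤ a) (ha1 : a ≤ 1) {x : ℕ → ℝ} (hx : ∀ n, 0 < x n)
    (hrec : ∀ n, x (n + 4) * x (n + 1) = a + x (n + 3) + 8 * x n) {m : ℕ} (h : Q a x m) :
    Q a x (m + 1) := by
  obtain ⟨n1, n2, n3, n4⟩ := step ha0 ha1 h.e1 h.e2 h.e3 (hx _).le (hx (2 * m + 5))
    (hx (2 * m + 1)).le (hx (2 * m + 3)).le h.q1 h.q2 h.q3 h.r h.l0 h.l1
    (by have := hrec (2 * m + 1); convert this using 2) (by have := hrec (2 * m + 3); convert this using 2)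
    (by have := hrec (2 * m + 4); convert this using 2)
  have e : 2 * (m + 1) = 2 * m + 2 := by ring
  exact ⟨by rw [e]; exact h.e1, by rw [e]; exact h.e2, by rw [e]; exact h.e3, by rw [e]; exact n1,
    by rw [e]; exact h.q2, by rw [e]; exact h.q3, by rw [e]; exact n2, by rw [e]; exact n3,
    by rw [e]; exact h.l1, by rw [e]; exact n4⟩

lemma unb {a : ℝ} (ha0 : 0 ≤ a) (ha1 : a ≤ 1) {x : ℕ → ℝ} (hx : ∀ n, 0 < x n)
    (hrec : ∀ n, x (n + 4) * x (n + 1) = a + x (n + 3) + 8 * x n) (h0 : x 0 = 1000)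
    (h1 : x 1 = 8) (h2 : x 2 = 1000) (h3 : x 3 = 1) : ¬∃ M : ℝ, ∀ n, x n ≤ M := by
  have r4 := hrec 0
  have r5 := hrec 1
  have r6 := hrec 2
  norm_num [h0, h1, h2, h3] at r4 r5 r6
  have q : Q a x 0 := by
    have a4 : x 4 = 1000 + (a + 1) / 8 := by linarith
    have a5 : x 5 = (a + x 4 + 64) / 1000 := by linarith
    refine ⟨by norm_num [h0], by norm_num [h2], ?_, ?_, ?_, ?_, ?_, ?_, ?_, ?_⟩ <;>
      norm_num [h0, h1, h2, h3] <;> nlinarith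
  have qn : ∀ m, Q a x m := by
    intro m
    induction m with
    | zero => exact q
    | succ m ih => exact ih.next ha0 ha1 hx hrec
  rintro ⟨M, hM⟩
  have g : ∀ k : ℕ, (4 : ℝ) ^ k ≤ x (6 * k) := by
    intro k
    induction k with
    | zero => norm_num [h0]
    | succ k ih =>
      have h := (qn (3 * k)).r
      rw [show 2 * (3 * k) = 6 * k by ring] at h
      rw [show 6 * (k + 1) = 6 * k + 6 by ring, pow_succ]
      linarith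
  obtain ⟨k, hk⟩ := pow_unbounded_of_one_lt M (show (1 : ℝ) < 4 by norm_num)
  linarith [g k, hM (6 * k)]

end Alt

/-- The general case. -/
theorem unb_alt {S : Finset (Fin 5)} {b : Fin 5 → ℝ} (hS : S.Nonempty) (hb : SupportedOn b S)
    {T : Finset (Fin 5)} {B : Fin 5 → ℝ} (hT : T.Nonempty) (hB : SupportedOn B T)
    (b0 : b 0 ≤ 1) (b1 : b 1 = 1) (b2 : b 2 = 0) (b3 : b 3 = 0) (b4 : b 4 = 8)
    (B0 : B 0 = 0) (B1 : B 1 = 0) (B2 : B 2 = 0) (B3 : B 3 = 1) (B4 : B 4 = 0) :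
    ¬BoundedOnly S T := by
  intro h
  obtain ⟨x, hx, hp, h0, h1, h2, h3⟩ := exists_pos_sol hS hT hb hB
    (show (0 : ℝ) < 1000 by norm_num) (show (0 : ℝ) < 8 by norm_num)
    (show (0 : ℝ) < 1000 by norm_num) (show (0 : ℝ) < 1 by norm_num)
  refine Alt.unb (a := b 0) (supp_nonneg hb 0) b0 hp (fun n => ?_) h0 h1 h2 h3 (h b B hb hB x hx)
  have hr := hx.step n
  have hd := hx.den_pos n
  rw [eq_div_iff hd.ne'] at hr
  simp only [lin, B0, B1, B2, B3, B4, b1, b2, b3, b4] at hr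
  linarith

theorem unb_18_8 : ¬BoundedOnly (fs 18) (fs 8) := by
  have e1 : fs 18 = {1, 4} := by decide
  have e2 : fs 8 = {3} := by decide
  rw [e1, e2]
  refine unb_alt (b := ![0, 1, 0, 0, 8]) (B := ![0, 0, 0, 1, 0]) (by simp) ⟨?_, ?_⟩ (by simp)
    ⟨?_, ?_⟩ ?_ ?_ ?_ ?_ ?_ ?_ ?_ ?_ ?_ ?_
  · intro i hi; fin_cases i <;> simp_all
  · intro i hi; fin_cases i <;> simp_all
  · intro i hi; fin_cases i <;> simp_all
  · intro i hi; fin_cases i <;> simp_all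
  all_goals simp

theorem unb_19_8 : ¬BoundedOnly (fs 19) (fs 8) := by
  have e1 : fs 19 = {0, 1, 4} := by decide
  have e2 : fs 8 = {3} := by decide
  rw [e1, e2]
  refine unb_alt (b := ![1, 1, 0, 0, 8]) (B := ![0, 0, 0, 1, 0]) (by simp) ⟨?_, ?_⟩ (by simp)
    ⟨?_, ?_⟩ ?_ ?_ ?_ ?_ ?_ ?_ ?_ ?_ ?_ ?_
  · intro i hi; fin_cases i <;> simp_all
  · intro i hi; fin_cases i <;> simp_all
  · intro i hi; fin_cases i <;> simp_all
  · intro i hi; fin_cases i <;> simp_all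
  all_goals simp

end Pool.Agent.RatRec
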