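import Pool.Agent.Lib_helper96.RatU.IntPat

/-!
The cases `(10, 16)` and `(11, 16)`: integer patterns of periods 54 and 29 without ties.
-/

set_option autoImplicit false

namespace Pool.Agent.RatRec

/-- The pattern for `S = 10`, `T = {4}`. -/
def c10 : IPat where
  p := 54
  S := 10
  it :=
    [1, 1, 1, 1, 1, 3, 3, 3, 3, 1, 3, 1, 1, 1, 1, 1, 3, 3, 3, 3, 1, 3, 3, 1, 1, 1, 1, 3, 3, 3,
      3, 1, 1, 3, 1, 1, 1, 1, 3, 3, 3, 3, 3, 1, 3, 1, 1, 1, 1, 3, 3, 3, 3, 3]
  A :=
    [13338, -19602, -26730, 17820, 4644, 24408, 51300, 33642, 29160, 26892, -17658, -4482,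
      -2268, -28998, 13176, 17820, 20250, 49410, 36396, 18738, 29160, -13014, -17658, 10422,
      -18576, -4644, 28080, 17820, 36558, 41364, 13446, 18738, 4806, -27918, 5292, -13284,
      -17928, 33210, 28080, 41526, 59616, 26568, 13446, 18090, -33048, -13122, 4644, -13284,
      19926, 33210, 28728, 42174, 22410, -4482]
  D :=
    [108, -162, -162, 108, 0, 162, 324, 216, 216, 162, -108, 0, -54, -216, 108, 108, 162, 378,
      270, 162, 216, -108, -108, 54, -162, 0, 162, 108, 270, 270, 108, 162, 0, -162, 54, -108,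
      -108, 216, 162, 270, 378, 162, 108, 108, -216, -54, 0, -108, 162, 216, 216, 324, 162, 0]
  g :=
    [0, 162, 0, 0]

/-- The pattern for `S = 11`, `T = {4}`. -/
def c11 : IPat where
  p := 29
  S := 11
  it :=
    [0, 3, 1, 1, 3, 1, 3, 3, 1, 3, 3, 1, 3, 3, 1, 3, 1, 1, 3, 1, 1, 3, 1, 1, 3, 1, 3, 3, 1]
  A :=
    [1550, -340, 7560, -1980, -1550, 8140, 580, 2560, 9930, 1790, 2220, 7610, -2320, 670, 5630,
      -1980, 3230, 5200, -430, 5450, 2220, -2980, 6120, 670, -1550, 9340, 3220, 2550, 11130]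
  D :=
    [240, -90, 1260, -330, -240, 1350, 90, 420, 1590, 240, 330, 1170, -420, 90, 840, -330, 510,
      750, -90, 840, 330, -420, 930, 90, -240, 1350, 420, 330, 1590]
  g :=
    [0, 0, 0, 240]

/-- The case `(10, 16)` is unbounded. -/
theorem unb_10_16 : ¬BoundedOnly (fs 10) (fs 16) := IPat.unb (c := c10) (by decide +kernel)

/-- The case `(11, 16)` is unbounded. -/
theorem unb_11_16 : ¬BoundedOnly (fs 11) (fs 16) := IPat.unb (c := c11) (by decide +kernel)

end Pool.Agent.RatRec
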