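import Pool.Agent.Lib_helper96.RatU.Shadow

/-!
The cases (14, 16) and (15, 16): `x_n x_(n-4) = a + x_(n-1) + s x_(n-2) + 2^24 x_(n-3)` with
`s^2 = 2^8 (1 + 2^24)` has a solution which follows a pattern of period 8 with the exponents
`0, 3, 0, 1, 3, 0, 3, 2`.
-/

set_option autoImplicit false

namespace Pool.Agent.RatRec

namespace P14

/-- The pattern: the value at the place `8 k + j`, where `L = 256 ^ k`. -/
noncomputable def pc (s : ℝ) (j : ℕ) (L : ℝ) : ℝ :=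
  if j = 0 then s else if j = 1 then s / 16777216 * L ^ 3 else if j = 2 then s else
  if j = 3 then L else if j = 4 then L ^ 3 else if j = 5 then 16777216 / s else
  if j = 6 then L ^ 3 else 16777217 * L ^ 2

/-- The pattern. -/
noncomputable def p (s : ℝ) (n : ℕ) : ℝ := pc s (n % 8) (256 ^ (n / 8))

lemma pv (s : ℝ) (k j : ℕ) (hj : j < 8) : p s (8 * k + j) = pc s j (256 ^ k) := by
  unfold p
  rw [Nat.mul_add_mod, Nat.mod_eq_of_lt hj, Nat.mul_add_div (by norm_num), Nat.div_eq_of_lt hj,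
    add_zero]

lemma hi {P0 L low c D : ℝ} (j : ℕ) (hP : 0 ≤ P0) (hL : 1 ≤ L)
    (hlow : low ≤ c * L ^ 2) (hc : c * 2 ^ j ≤ P0 * D) :
    P0 * L ^ 3 + low ≤ P0 * L ^ 3 * Real.exp (D / (L * 2 ^ j)) := by
  have h1 := Real.add_one_le_exp (D / (L * 2 ^ j))
  have hL0 : 0 < L := by linarith
  have h2 : P0 * L ^ 3 * (D / (L * 2 ^ j) + 1) ≤ P0 * L ^ 3 * Real.exp (D / (L * 2 ^ j)) :=
    mul_le_mul_of_nonneg_left h1 (by positivity)
  refine le_trans ?_ h2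
  have h3 : P0 * L ^ 3 * (D / (L * 2 ^ j) + 1) = P0 * L ^ 3 + P0 * D / 2 ^ j * L ^ 2 := by
    field_simp
    ring
  rw [h3]
  have h4 : c ≤ P0 * D / 2 ^ j := by
    rw [le_div_iff₀ (by positivity)]
    exact hc
  have h5 : c * L ^ 2 ≤ P0 * D / 2 ^ j * L ^ 2 := mul_le_mul_of_nonneg_right h4 (by positivity)
  linarith

lemma close {P Fv P0 L low c : ℝ} (j : ℕ) (hP : P = P0 * L ^ 3) (hF : Fv = P0 * L ^ 3 + low)
    (hP0 : 0 ≤ P0) (hL : 1 ≤ L) (hlow0 : 0 ≤ low) (hlow : low ≤ c * L ^ 2)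
    (hc : c * 2 ^ j ≤ P0 * 2 ^ 50) :
    P ≤ Fv ∧ Fv ≤ P * Real.exp (2 ^ 50 / (L * 2 ^ j)) := by
  rw [hP, hF]
  exact ⟨by linarith, hi j hP0 hL hlow hc⟩

lemma two_pow (k j : ℕ) : (2 : ℝ) ^ (8 * k + j) = 256 ^ k * 2 ^ j := by
  rw [pow_add, pow_mul]
  norm_num

lemma c0 {s a L v0 v1 v2 v3 v4 : ℝ} (s1 : 65536 ≤ s) (s2 : s ≤ 65537)
    (hs2 : s * s = 4294967552) (ha0 : 0 ≤ a) (ha1 : a ≤ 1) (hL : 1 ≤ L)
    (h0 : v0 = s) (h1 : v1 = s / 16777216 * L ^ 3) (h2 : v2 = s)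
    (h3 : v3 = L) (h4 : v4 = L ^ 3) :
    v0 * v4 ≤ a + 1 * v3 + s * v2 + 16777216 * v1 ∧
      a + 1 * v3 + s * v2 + 16777216 * v1 ≤ v0 * v4 * Real.exp (2 ^ 50 / (L * 2 ^ 0)) := by
  have hs : 0 < s := by linarith
  have hL0 : 0 < L := by linarith
  have hLL : L ≤ L ^ 2 := by nlinarith
  have hL2 : 1 ≤ L ^ 2 := by nlinarith
  have hd : 16777216 / s ≤ 256 := by rw [div_le_iff₀ hs]; linarith
  have hd0 : 0 < 16777216 / s := by positivity
  refine close 0 (P0 := s) (low := a + L + s * s) (c := 2 ^ 49) ?_ ?_ (by positivity) hL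
    (by positivity) ?_ ?_
  · rw [h0, h4] <;> field_simp <;> try nlinarith
  · rw [h1, h2, h3] <;> field_simp <;> try nlinarith
  · nlinarith
  · nlinarith

lemma c1 {s a L v0 v1 v2 v3 v4 : ℝ} (s1 : 65536 ≤ s) (s2 : s ≤ 65537)
    (hs2 : s * s = 4294967552) (ha0 : 0 ≤ a) (ha1 : a ≤ 1) (hL : 1 ≤ L)
    (h0 : v0 = s / 16777216 * L ^ 3) (h1 : v1 = s) (h2 : v2 = L)
    (h3 : v3 = L ^ 3) (h4 : v4 = 16777216 / s) :
    v0 * v4 ≤ a + 1 * v3 + s * v2 + 16777216 * v1 ∧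
      a + 1 * v3 + s * v2 + 16777216 * v1 ≤ v0 * v4 * Real.exp (2 ^ 50 / (L * 2 ^ 1)) := by
  have hs : 0 < s := by linarith
  have hL0 : 0 < L := by linarith
  have hLL : L ≤ L ^ 2 := by nlinarith
  have hL2 : 1 ≤ L ^ 2 := by nlinarith
  have hd : 16777216 / s ≤ 256 := by rw [div_le_iff₀ hs]; linarith
  have hd0 : 0 < 16777216 / s := by positivity
  refine close 1 (P0 := 1) (low := a + s * L + 16777216 * s) (c := 2 ^ 49) ?_ ?_ (by positivity) hL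
    (by positivity) ?_ ?_
  · rw [h0, h4] <;> field_simp <;> try nlinarith
  · rw [h1, h2, h3] <;> field_simp <;> try nlinarith
  · nlinarith
  · nlinarith

lemma c2 {s a L v0 v1 v2 v3 v4 : ℝ} (s1 : 65536 ≤ s) (s2 : s ≤ 65537)
    (hs2 : s * s = 4294967552) (ha0 : 0 ≤ a) (ha1 : a ≤ 1) (hL : 1 ≤ L)
    (h0 : v0 = s) (h1 : v1 = L) (h2 : v2 = L ^ 3)
    (h3 : v3 = 16777216 / s) (h4 : v4 = L ^ 3) :
    v0 * v4 ≤ a + 1 * v3 + s * v2 + 16777216 * v1 ∧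
      a + 1 * v3 + s * v2 + 16777216 * v1 ≤ v0 * v4 * Real.exp (2 ^ 50 / (L * 2 ^ 2)) := by
  have hs : 0 < s := by linarith
  have hL0 : 0 < L := by linarith
  have hLL : L ≤ L ^ 2 := by nlinarith
  have hL2 : 1 ≤ L ^ 2 := by nlinarith
  have hd : 16777216 / s ≤ 256 := by rw [div_le_iff₀ hs]; linarith
  have hd0 : 0 < 16777216 / s := by positivity
  refine close 2 (P0 := s) (low := a + 16777216 / s + 16777216 * L) (c := 2 ^ 49) ?_ ?_ (by positivity) hL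
    (by positivity) ?_ ?_
  · rw [h0, h4] <;> field_simp <;> try nlinarith
  · rw [h1, h2, h3] <;> field_simp <;> try nlinarith
  · nlinarith
  · nlinarith

lemma c3 {s a L v0 v1 v2 v3 v4 : ℝ} (s1 : 65536 ≤ s) (s2 : s ≤ 65537)
    (hs2 : s * s = 4294967552) (ha0 : 0 ≤ a) (ha1 : a ≤ 1) (hL : 1 ≤ L)
    (h0 : v0 = L) (h1 : v1 = L ^ 3) (h2 : v2 = 16777216 / s)
    (h3 : v3 = L ^ 3) (h4 : v4 = 16777217 * L ^ 2) :
    v0 * v4 ≤ a + 1 * v3 + s * v2 + 16777216 * v1 ∧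
      a + 1 * v3 + s * v2 + 16777216 * v1 ≤ v0 * v4 * Real.exp (2 ^ 50 / (L * 2 ^ 3)) := by
  have hs : 0 < s := by linarith
  have hL0 : 0 < L := by linarith
  have hLL : L ≤ L ^ 2 := by nlinarith
  have hL2 : 1 ≤ L ^ 2 := by nlinarith
  have hd : 16777216 / s ≤ 256 := by rw [div_le_iff₀ hs]; linarith
  have hd0 : 0 < 16777216 / s := by positivity
  refine close 3 (P0 := 16777217) (low := a + s * (16777216 / s)) (c := 2 ^ 49) ?_ ?_ (by positivity) hL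
    (by positivity) ?_ ?_
  · rw [h0, h4] <;> field_simp <;> try nlinarith
  · rw [h1, h2, h3] <;> field_simp <;> try nlinarith
  · nlinarith
  · nlinarith

lemma c4 {s a L v0 v1 v2 v3 v4 : ℝ} (s1 : 65536 ≤ s) (s2 : s ≤ 65537)
    (hs2 : s * s = 4294967552) (ha0 : 0 ≤ a) (ha1 : a ≤ 1) (hL : 1 ≤ L)
    (h0 : v0 = L ^ 3) (h1 : v1 = 16777216 / s) (h2 : v2 = L ^ 3)
    (h3 : v3 = 16777217 * L ^ 2) (h4 : v4 = s) :
    v0 * v4 ≤ a + 1 * v3 + s * v2 + 16777216 * v1 ∧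
      a + 1 * v3 + s * v2 + 16777216 * v1 ≤ v0 * v4 * Real.exp (2 ^ 50 / (L * 2 ^ 4)) := by
  have hs : 0 < s := by linarith
  have hL0 : 0 < L := by linarith
  have hLL : L ≤ L ^ 2 := by nlinarith
  have hL2 : 1 ≤ L ^ 2 := by nlinarith
  have hd : 16777216 / s ≤ 256 := by rw [div_le_iff₀ hs]; linarith
  have hd0 : 0 < 16777216 / s := by positivity
  refine close 4 (P0 := s) (low := a + 16777217 * L ^ 2 + 16777216 * (16777216 / s)) (c := 2 ^ 49) ?_ ?_ (by positivity) hL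
    (by positivity) ?_ ?_
  · rw [h0, h4] <;> field_simp <;> try nlinarith
  · rw [h1, h2, h3] <;> field_simp <;> try nlinarith
  · nlinarith
  · nlinarith

lemma c5 {s a L v0 v1 v2 v3 v4 : ℝ} (s1 : 65536 ≤ s) (s2 : s ≤ 65537)
    (hs2 : s * s = 4294967552) (ha0 : 0 ≤ a) (ha1 : a ≤ 1) (hL : 1 ≤ L)
    (h0 : v0 = 16777216 / s) (h1 : v1 = L ^ 3) (h2 : v2 = 16777217 * L ^ 2)
    (h3 : v3 = s) (h4 : v4 = s / 16777216 * (256 * L) ^ 3) :
    v0 * v4 ≤ a + 1 * v3 + s * v2 + 16777216 * v1 ∧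
      a + 1 * v3 + s * v2 + 16777216 * v1 ≤ v0 * v4 * Real.exp (2 ^ 50 / (L * 2 ^ 5)) := by
  have hs : 0 < s := by linarith
  have hL0 : 0 < L := by linarith
  have hLL : L ≤ L ^ 2 := by nlinarith
  have hL2 : 1 ≤ L ^ 2 := by nlinarith
  have hd : 16777216 / s ≤ 256 := by rw [div_le_iff₀ hs]; linarith
  have hd0 : 0 < 16777216 / s := by positivity
  refine close 5 (P0 := 16777216) (low := a + s + s * (16777217 * L ^ 2)) (c := 2 ^ 49) ?_ ?_ (by positivity) hL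
    (by positivity) ?_ ?_
  · rw [h0, h4] <;> field_simp <;> try nlinarith
  · rw [h1, h2, h3] <;> field_simp <;> try nlinarith
  · nlinarith
  · nlinarith

lemma c6 {s a L v0 v1 v2 v3 v4 : ℝ} (s1 : 65536 ≤ s) (s2 : s ≤ 65537)
    (hs2 : s * s = 4294967552) (ha0 : 0 ≤ a) (ha1 : a ≤ 1) (hL : 1 ≤ L)
    (h0 : v0 = L ^ 3) (h1 : v1 = 16777217 * L ^ 2) (h2 : v2 = s)
    (h3 : v3 = s / 16777216 * (256 * L) ^ 3) (h4 : v4 = s) :
    v0 * v4 ≤ a + 1 * v3 + s * v2 + 16777216 * v1 ∧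
      a + 1 * v3 + s * v2 + 16777216 * v1 ≤ v0 * v4 * Real.exp (2 ^ 50 / (L * 2 ^ 6)) := by
  have hs : 0 < s := by linarith
  have hL0 : 0 < L := by linarith
  have hLL : L ≤ L ^ 2 := by nlinarith
  have hL2 : 1 ≤ L ^ 2 := by nlinarith
  have hd : 16777216 / s ≤ 256 := by rw [div_le_iff₀ hs]; linarith
  have hd0 : 0 < 16777216 / s := by positivity
  refine close 6 (P0 := s) (low := a + s * s + 16777216 * (16777217 * L ^ 2)) (c := 2 ^ 49) ?_ ?_ (by positivity) hL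
    (by positivity) ?_ ?_
  · rw [h0, h4] <;> field_simp <;> try nlinarith
  · rw [h1, h2, h3] <;> field_simp <;> try nlinarith
  · nlinarith
  · nlinarith

lemma c7 {s a L v0 v1 v2 v3 v4 : ℝ} (s1 : 65536 ≤ s) (s2 : s ≤ 65537)
    (hs2 : s * s = 4294967552) (ha0 : 0 ≤ a) (ha1 : a ≤ 1) (hL : 1 ≤ L)
    (h0 : v0 = 16777217 * L ^ 2) (h1 : v1 = s) (h2 : v2 = s / 16777216 * (256 * L) ^ 3)
    (h3 : v3 = s) (h4 : v4 = (256 * L)) :
    v0 * v4 ≤ a + 1 * v3 + s * v2 + 16777216 * v1 ∧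
      a + 1 * v3 + s * v2 + 16777216 * v1 ≤ v0 * v4 * Real.exp (2 ^ 50 / (L * 2 ^ 7)) := by
  have hs : 0 < s := by linarith
  have hL0 : 0 < L := by linarith
  have hLL : L ≤ L ^ 2 := by nlinarith
  have hL2 : 1 ≤ L ^ 2 := by nlinarith
  have hd : 16777216 / s ≤ 256 := by rw [div_le_iff₀ hs]; linarith
  have hd0 : 0 < 16777216 / s := by positivity
  refine close 7 (P0 := (s * s)) (low := a + s + 16777216 * s) (c := 2 ^ 49) ?_ ?_ (by positivity) hL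
    (by positivity) ?_ ?_
  · rw [h0, h4] <;> field_simp <;> try nlinarith
  · rw [h1, h2, h3] <;> field_simp <;> try nlinarith
  · nlinarith
  · nlinarith

open Shadow in
lemma both {s a : ℝ} (s1 : 65536 ≤ s) (s2 : s ≤ 65537) (hs2 : s * s = 4294967552)
    (ha0 : 0 ≤ a) (ha1 : a ≤ 1) (n : ℕ) :
    p s n * p s (n + 4) ≤ F a 1 s 16777216 (p s) n ∧
      F a 1 s 16777216 (p s) n ≤ p s n * p s (n + 4) * Real.exp (2 ^ 50 / 2 ^ n) := by
  obtain ⟨k, j, hj, rfl⟩ : ∃ k j, j < 8 ∧ n = 8 * k + j :=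
    ⟨n / 8, n % 8, Nat.mod_lt _ (by norm_num), (Nat.div_add_mod n 8).symm⟩
  rw [two_pow]
  have hL : (1 : ℝ) ≤ 256 ^ k := one_le_pow₀ (by norm_num)
  have q : ∀ i, i < 8 → p s (8 * k + i) = pc s i (256 ^ k) := fun i hi => pv s k i hi
  have q' : ∀ i, i < 8 → p s (8 * k + (8 + i)) = pc s i (256 * 256 ^ k) := fun i hi => by
    rw [show 8 * k + (8 + i) = 8 * (k + 1) + i by ring, pv s (k + 1) i hi, pow_succ, mul_comm]
  unfold F
  interval_cases j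
  · exact c0 s1 s2 hs2 ha0 ha1 hL
      (by rw [q 0 (by norm_num)]; simp [pc])
      (by rw [show 8 * k + 0 + 1 = 8 * k + 1 by ring, q 1 (by norm_num)]; simp [pc])
      (by rw [show 8 * k + 0 + 2 = 8 * k + 2 by ring, q 2 (by norm_num)]; simp [pc])
      (by rw [show 8 * k + 0 + 3 = 8 * k + 3 by ring, q 3 (by norm_num)]; simp [pc])
      (by rw [show 8 * k + 0 + 4 = 8 * k + 4 by ring, q 4 (by norm_num)]; simp [pc])
  · exact c1 s1 s2 hs2 ha0 ha1 hL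
      (by rw [q 1 (by norm_num)]; simp [pc])
      (by rw [show 8 * k + 1 + 1 = 8 * k + 2 by ring, q 2 (by norm_num)]; simp [pc])
      (by rw [show 8 * k + 1 + 2 = 8 * k + 3 by ring, q 3 (by norm_num)]; simp [pc])
      (by rw [show 8 * k + 1 + 3 = 8 * k + 4 by ring, q 4 (by norm_num)]; simp [pc])
      (by rw [show 8 * k + 1 + 4 = 8 * k + 5 by ring, q 5 (by norm_num)]; simp [pc])
  · exact c2 s1 s2 hs2 ha0 ha1 hL
      (by rw [q 2 (by norm_num)]; simp [pc])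
      (by rw [show 8 * k + 2 + 1 = 8 * k + 3 by ring, q 3 (by norm_num)]; simp [pc])
      (by rw [show 8 * k + 2 + 2 = 8 * k + 4 by ring, q 4 (by norm_num)]; simp [pc])
      (by rw [show 8 * k + 2 + 3 = 8 * k + 5 by ring, q 5 (by norm_num)]; simp [pc])
      (by rw [show 8 * k + 2 + 4 = 8 * k + 6 by ring, q 6 (by norm_num)]; simp [pc])
  · exact c3 s1 s2 hs2 ha0 ha1 hL
      (by rw [q 3 (by norm_num)]; simp [pc])
      (by rw [show 8 * k + 3 + 1 = 8 * k + 4 by ring, q 4 (by norm_num)]; simp [pc])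
      (by rw [show 8 * k + 3 + 2 = 8 * k + 5 by ring, q 5 (by norm_num)]; simp [pc])
      (by rw [show 8 * k + 3 + 3 = 8 * k + 6 by ring, q 6 (by norm_num)]; simp [pc])
      (by rw [show 8 * k + 3 + 4 = 8 * k + 7 by ring, q 7 (by norm_num)]; simp [pc])
  · exact c4 s1 s2 hs2 ha0 ha1 hL
      (by rw [q 4 (by norm_num)]; simp [pc])
      (by rw [show 8 * k + 4 + 1 = 8 * k + 5 by ring, q 5 (by norm_num)]; simp [pc])
      (by rw [show 8 * k + 4 + 2 = 8 * k + 6 by ring, q 6 (by norm_num)]; simp [pc])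
      (by rw [show 8 * k + 4 + 3 = 8 * k + 7 by ring, q 7 (by norm_num)]; simp [pc])
      (by rw [show 8 * k + 4 + 4 = 8 * k + (8 + 0) by ring, q' 0 (by norm_num)]; simp [pc])
  · exact c5 s1 s2 hs2 ha0 ha1 hL
      (by rw [q 5 (by norm_num)]; simp [pc])
      (by rw [show 8 * k + 5 + 1 = 8 * k + 6 by ring, q 6 (by norm_num)]; simp [pc])
      (by rw [show 8 * k + 5 + 2 = 8 * k + 7 by ring, q 7 (by norm_num)]; simp [pc])
      (by rw [show 8 * k + 5 + 3 = 8 * k + (8 + 0) by ring, q' 0 (by norm_num)]; simp [pc])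
      (by rw [show 8 * k + 5 + 4 = 8 * k + (8 + 1) by ring, q' 1 (by norm_num)]; simp [pc])
  · exact c6 s1 s2 hs2 ha0 ha1 hL
      (by rw [q 6 (by norm_num)]; simp [pc])
      (by rw [show 8 * k + 6 + 1 = 8 * k + 7 by ring, q 7 (by norm_num)]; simp [pc])
      (by rw [show 8 * k + 6 + 2 = 8 * k + (8 + 0) by ring, q' 0 (by norm_num)]; simp [pc])
      (by rw [show 8 * k + 6 + 3 = 8 * k + (8 + 1) by ring, q' 1 (by norm_num)]; simp [pc])
      (by rw [show 8 * k + 6 + 4 = 8 * k + (8 + 2) by ring, q' 2 (by norm_num)]; simp [pc])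
  · exact c7 s1 s2 hs2 ha0 ha1 hL
      (by rw [q 7 (by norm_num)]; simp [pc])
      (by rw [show 8 * k + 7 + 1 = 8 * k + (8 + 0) by ring, q' 0 (by norm_num)]; simp [pc])
      (by rw [show 8 * k + 7 + 2 = 8 * k + (8 + 1) by ring, q' 1 (by norm_num)]; simp [pc])
      (by rw [show 8 * k + 7 + 3 = 8 * k + (8 + 2) by ring, q' 2 (by norm_num)]; simp [pc])
      (by rw [show 8 * k + 7 + 4 = 8 * k + (8 + 3) by ring, q' 3 (by norm_num)]; simp [pc])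

lemma exists_sol {s a : ℝ} (s1 : 65536 ≤ s) (s2 : s ≤ 65537) (hs2 : s * s = 4294967552)
    (ha0 : 0 ≤ a) (ha1 : a ≤ 1) :
    ∃ x : ℕ → ℝ, (∀ n, 0 < x n) ∧
      (∀ n, x n * x (n + 4) = a + 1 * x (n + 3) + s * x (n + 2) + 16777216 * x (n + 1)) ∧
      ¬∃ M : ℝ, ∀ n, x n ≤ M := by
  have hs : 0 < s := by linarith
  have hp : ∀ n, 0 < p s n := by
    intro n
    unfold p pc
    split_ifs <;> positivity
  obtain ⟨x, hx, hr, hb⟩ := Shadow.exists_sol ha0 zero_le_one hs.le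
    (by norm_num : (0 : ℝ) ≤ 16777216) hp (by positivity : (0 : ℝ) ≤ 2 ^ 50)
    (fun n => (both s1 s2 hs2 ha0 ha1 n).1) (fun n => (both s1 s2 hs2 ha0 ha1 n).2)
  refine ⟨x, hx, hr, ?_⟩
  rintro ⟨M, hM⟩
  obtain ⟨R, hR0, hb⟩ : ∃ R : ℝ, 0 < R ∧ ∀ n, p s n ≤ x n * R := ⟨_, Real.exp_pos _, hb⟩
  obtain ⟨k, hk⟩ := pow_unbounded_of_one_lt (M * R) (show (1 : ℝ) < 256 by norm_num)
  have h1 := hb (8 * k + 3)
  rw [pv s k 3 (by norm_num)] at h1
  simp only [pc] at h1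
  norm_num at h1
  have h2 := mul_le_mul_of_nonneg_right (hM (8 * k + 3)) hR0.le
  linarith

end P14

/-- The general case. -/
theorem unb_P14 {S : Finset (Fin 5)} {b : Fin 5 → ℝ} (hb : SupportedOn b S) {s : ℝ}
    {T : Finset (Fin 5)} {B : Fin 5 → ℝ} (hB : SupportedOn B T)
    (s1 : 65536 ≤ s) (s2 : s ≤ 65537) (hs2 : s * s = 4294967552)
    (b0 : b 0 ≤ 1) (b1 : b 1 = 1) (b2 : b 2 = s) (b3 : b 3 = 16777216) (b4 : b 4 = 0)
    (B0 : B 0 = 0) (B1 : B 1 = 0) (B2 : B 2 = 0) (B3 : B 3 = 0) (B4 : B 4 = 1) :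
    ¬BoundedOnly S T := by
  intro h
  obtain ⟨x, hp, hr, hu⟩ := P14.exists_sol s1 s2 hs2 (supp_nonneg hb 0) b0
  refine hu (h b B hb hB x ⟨fun n _ => (hp n).le, fun n => ?_, fun n => ?_⟩)
  · simp only [lin, B0, B1, B2, B3, B4]
    have := hp n
    linarith
  · simp only [lin, B0, B1, B2, B3, B4, b1, b2, b3, b4]
    rw [eq_div_iff (by have := hp n; linarith)]
    have := hr n
    linarith

theorem unb_14_16 : ¬BoundedOnly (fs 14) (fs 16) := by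
  have e1 : fs 14 = {1, 2, 3} := by decide
  have e2 : fs 16 = {4} := by decide
  have hs : 0 < Real.sqrt 4294967552 := Real.sqrt_pos.2 (by norm_num)
  rw [e1, e2]
  refine unb_P14 (b := ![0, 1, Real.sqrt 4294967552, 16777216, 0]) (s := Real.sqrt 4294967552)
    (B := ![0, 0, 0, 0, 1]) ⟨?_, ?_⟩
    ⟨?_, ?_⟩ (Real.le_sqrt_of_sq_le (by norm_num)) (Real.sqrt_le_iff.2 ⟨by norm_num, by norm_num⟩)
    (Real.mul_self_sqrt (by norm_num)) ?_ ?_ ?_ ?_ ?_ ?_ ?_ ?_ ?_ ?_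
  · intro i hi; fin_cases i <;> simp_all
  · intro i hi; fin_cases i <;> simp_all
  · intro i hi; fin_cases i <;> simp_all
  · intro i hi; fin_cases i <;> simp_all
  all_goals simp

theorem unb_15_16 : ¬BoundedOnly (fs 15) (fs 16) := by
  have e1 : fs 15 = {0, 1, 2, 3} := by decide
  have e2 : fs 16 = {4} := by decide
  have hs : 0 < Real.sqrt 4294967552 := Real.sqrt_pos.2 (by norm_num)
  rw [e1, e2]
  refine unb_P14 (b := ![1, 1, Real.sqrt 4294967552, 16777216, 0]) (s := Real.sqrt 4294967552)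
    (B := ![0, 0, 0, 0, 1]) ⟨?_, ?_⟩
    ⟨?_, ?_⟩ (Real.le_sqrt_of_sq_le (by norm_num)) (Real.sqrt_le_iff.2 ⟨by norm_num, by norm_num⟩)
    (Real.mul_self_sqrt (by norm_num)) ?_ ?_ ?_ ?_ ?_ ?_ ?_ ?_ ?_ ?_
  · intro i hi; fin_cases i <;> simp_all
  · intro i hi; fin_cases i <;> simp_all
  · intro i hi; fin_cases i <;> simp_all
  · intro i hi; fin_cases i <;> simp_all
  all_goals simp

end Pool.Agent.RatRec
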