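import Pool.Agent.Lib_helper61.Rat.Window

/-!
Existence of positive solutions with given coefficients and initial values.
-/

set_option autoImplicit false

namespace Pool.Agent.RatRec

/-- The sequence with the given first four values. -/
noncomputable def sq (b B : Fin 5 → ℝ) (i0 i1 i2 i3 : ℝ) : ℕ → ℝ
  | 0 => i0
  | 1 => i1
  | 2 => i2
  | 3 => i3
  | n + 4 => (b 0 + b 1 * sq b B i0 i1 i2 i3 (n + 3) + b 2 * sq b B i0 i1 i2 i3 (n + 2) +
      b 3 * sq b B i0 i1 i2 i3 (n + 1) + b 4 * sq b B i0 i1 i2 i3 n) /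
      (B 0 + B 1 * sq b B i0 i1 i2 i3 (n + 3) + B 2 * sq b B i0 i1 i2 i3 (n + 2) +
      B 3 * sq b B i0 i1 i2 i3 (n + 1) + B 4 * sq b B i0 i1 i2 i3 n)

theorem supp_nonneg {c : Fin 5 → ℝ} {S : Finset (Fin 5)} (h : SupportedOn c S) (i : Fin 5) :
    0 ≤ c i := by
  by_cases hi : i ∈ S
  · exact (h.1 i hi).le
  · exact (h.2 i hi).ge

theorem lin_pos4 {c : Fin 5 → ℝ} {S : Finset (Fin 5)} (h : SupportedOn c S) (hS : S.Nonempty)
    {x : ℕ → ℝ} {n : ℕ} (h0 : 0 < x n) (h1 : 0 < x (n + 1)) (h2 : 0 < x (n + 2))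
    (h3 : 0 < x (n + 3)) : 0 < lin c x n := by
  obtain ⟨i, hi⟩ := hS
  have hc := h.1 i hi
  have hn := supp_nonneg h
  have e0 := hn 0
  have e1 := mul_nonneg (hn 1) h3.le
  have e2 := mul_nonneg (hn 2) h2.le
  have e3 := mul_nonneg (hn 3) h1.le
  have e4 := mul_nonneg (hn 4) h0.le
  unfold lin
  fin_cases i
  · have : 0 < c 0 := hc
    linarith
  · have : 0 < c 1 * x (n + 3) := mul_pos hc h3
    linarith
  · have : 0 < c 2 * x (n + 2) := mul_pos hc h2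
    linarith
  · have : 0 < c 3 * x (n + 1) := mul_pos hc h1
    linarith
  · have : 0 < c 4 * x n := mul_pos hc h0
    linarith

theorem exists_pos_sol {S T : Finset (Fin 5)} (hS : S.Nonempty) (hT : T.Nonempty)
    {b B : Fin 5 → ℝ} (hb : SupportedOn b S) (hB : SupportedOn B T) {i0 i1 i2 i3 : ℝ}
    (h0 : 0 < i0) (h1 : 0 < i1) (h2 : 0 < i2) (h3 : 0 < i3) :
    ∃ x : ℕ → ℝ, IsSolution b B x ∧ (∀ n, 0 < x n) ∧ x 0 = i0 ∧ x 1 = i1 ∧ x 2 = i2 ∧
      x 3 = i3 := by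
  set x := sq b B i0 i1 i2 i3 with hx
  have hrec : ∀ n, x (n + 4) = lin b x n / lin B x n := fun n => by
    rw [hx]; simp only [sq, lin]
  have hp : ∀ n, 0 < x n ∧ 0 < x (n + 1) ∧ 0 < x (n + 2) ∧ 0 < x (n + 3) := by
    intro n
    induction n with
    | zero => exact ⟨by simpa [hx, sq] using h0, by simpa [hx, sq] using h1,
        by simpa [hx, sq] using h2, by simpa [hx, sq] using h3⟩
    | succ n ih =>
      obtain ⟨a0, a1, a2, a3⟩ := ih
      refine ⟨a1, a2, a3, ?_⟩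
      have := hrec n
      rw [show n + 1 + 3 = n + 4 by ring, this]
      exact div_pos (lin_pos4 hb hS a0 a1 a2 a3) (lin_pos4 hB hT a0 a1 a2 a3)
  refine ⟨x, ⟨fun n _ => (hp n).1.le, fun n => ?_, hrec⟩, fun n => (hp n).1, by simp [hx, sq],
    by simp [hx, sq], by simp [hx, sq], by simp [hx, sq]⟩
  exact lin_pos4 hB hT (hp n).1 (hp n).2.1 (hp n).2.2.1 (hp n).2.2.2

end Pool.Agent.RatRec
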