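import Pool.Agent.Lib_helper96.RatU.Shadow

/-!
Integer patterns without ties: a checker for the equations `x_n x_(n-4) = b0 + ... + b3 x_(n-3)`
whose coefficients are powers of 2.
-/

set_option autoImplicit false

namespace Pool.Agent.RatRec

/-- A pattern of period `p`: at the place `p k + j` the exponent of 2 is `A j + k D j`; `it j` is the
index of the dominating term in the equation for the place `n + 4`, `n = p k + j`. -/
structure IPat where
  p : ℕ
  S : ℕ
  it : List ℕ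
  A : List ℤ
  D : List ℤ
  g : List ℤ

namespace IPat

variable (c : IPat)

/-- Base exponent at the offset `m`. -/
def aA (m : ℕ) : ℤ := if m < c.p then c.A.getD m 0 else c.A.getD (m - c.p) 0 + c.D.getD (m - c.p) 0

/-- Slope at the offset `m`. -/
def aD (m : ℕ) : ℤ := if m < c.p then c.D.getD m 0 else c.D.getD (m - c.p) 0

/-- Base exponent of the term `k`. -/
def tA (j k : ℕ) : ℤ := if k = 0 then c.g.getD 0 0 else c.g.getD k 0 + c.aA (j + 4 - k)

/-- Slope of the term `k`. -/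
def tD (j k : ℕ) : ℤ := if k = 0 then 0 else c.aD (j + 4 - k)

/-- The check. -/
def ok : Bool :=
  decide (5 ≤ c.p) && (c.D.take c.p).any (fun d => decide (1 ≤ d)) &&
  (bits c.S).all (fun k => Nat.ble k 3) &&
  (List.range c.p).all (fun j =>
    (bits c.S).contains (c.it.getD j 0) &&
    decide (c.aA (j + 4) + c.aA j = c.tA j (c.it.getD j 0)) &&
    decide (c.aD (j + 4) + c.aD j = c.tD j (c.it.getD j 0)) &&
    (bits c.S).all (fun k => k == c.it.getD j 0 ||
      (decide (c.tA j k ≤ c.tA j (c.it.getD j 0)) &&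
       decide (c.tD j k + c.p ≤ c.tD j (c.it.getD j 0)))))

/-- The pattern. -/
noncomputable def pat (n : ℕ) : ℝ :=
  (2 : ℝ) ^ (c.A.getD (n % c.p) 0 + ((n / c.p : ℕ) : ℤ) * c.D.getD (n % c.p) 0)

/-- Coefficients. -/
noncomputable def cf (k : ℕ) : ℝ := if k ∈ bits c.S then (2 : ℝ) ^ (c.g.getD k 0) else 0

lemma cf_nonneg (k : ℕ) : 0 ≤ c.cf k := by
  unfold cf
  split_ifs <;> positivity

lemma pat_pos (n : ℕ) : 0 < c.pat n := by unfold pat; positivity

variable {c}

lemma pat_eq (hp : 0 < c.p) (k m : ℕ) (hm : m < 2 * c.p) :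
    c.pat (c.p * k + m) = (2 : ℝ) ^ (c.aA m + (k : ℤ) * c.aD m) := by
  unfold pat aA aD
  by_cases h : m < c.p
  · rw [Nat.mul_add_mod, Nat.mod_eq_of_lt h, Nat.mul_add_div hp, Nat.div_eq_of_lt h, add_zero,
      if_pos h, if_pos h]
  · have e : c.p * k + m = c.p * (k + 1) + (m - c.p) := by
      have : c.p * (k + 1) = c.p * k + c.p := by ring
      omega
    have h' : m - c.p < c.p := by omega
    rw [e, Nat.mul_add_mod, Nat.mod_eq_of_lt h', Nat.mul_add_div hp, Nat.div_eq_of_lt h', add_zero,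
      if_neg h, if_neg h]
    congr 1
    push_cast
    ring

lemma term_eq (hp : 5 ≤ c.p) (k j i : ℕ) (hj : j < c.p) (hi : i = 1 ∨ i = 2 ∨ i = 3)
    (hS : i ∈ bits c.S) :
    c.cf i * c.pat (c.p * k + j + (4 - i)) = (2 : ℝ) ^ (c.tA j i + (k : ℤ) * c.tD j i) := by
  have h4 : i ≤ 4 := by omega
  have e : c.p * k + j + (4 - i) = c.p * k + (j + 4 - i) := by omega
  rw [e, pat_eq (by omega) k (j + 4 - i) (by omega)]
  unfold cf tA tD
  rw [if_pos hS, if_neg (by omega), if_neg (by omega), ← zpow_add₀ (by norm_num)]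
  congr 1
  ring

lemma zero_le {i : ℕ} (hS : i ∉ bits c.S) (x : ℝ) : c.cf i * x = 0 := by
  unfold cf
  rw [if_neg hS, zero_mul]

open Shadow in
/-- The defect. -/
lemma both (h : c.ok = true) (n : ℕ) :
    c.pat n * c.pat (n + 4) ≤ F (c.cf 0) (c.cf 1) (c.cf 2) (c.cf 3) c.pat n ∧
      F (c.cf 0) (c.cf 1) (c.cf 2) (c.cf 3) c.pat n ≤
        c.pat n * c.pat (n + 4) * Real.exp (3 * 2 ^ c.p / 2 ^ n) := by
  simp only [ok, Bool.and_eq_true, decide_eq_true_eq, List.all_eq_true, List.mem_range,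
    Bool.or_eq_true, beq_iff_eq, Nat.ble_eq, List.contains_iff_mem] at h
  obtain ⟨⟨⟨hp, -⟩, hS3⟩, hall⟩ := h
  obtain ⟨k, j, hj, rfl⟩ : ∃ k j, j < c.p ∧ n = c.p * k + j :=
    ⟨n / c.p, n % c.p, Nat.mod_lt _ (by omega), (Nat.div_add_mod n c.p).symm⟩
  obtain ⟨⟨⟨hiS, hA⟩, hD⟩, halt⟩ := hall j hj
  set i := c.it.getD j 0 with hi
  -- the terms
  set T : ℕ → ℝ := fun m => if m ∈ bits c.S then (2 : ℝ) ^ (c.tA j m + (k : ℤ) * c.tD j m) else 0
    with hT
  have hF : F (c.cf 0) (c.cf 1) (c.cf 2) (c.cf 3) c.pat (c.p * k + j) =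
      T 0 + T 1 + T 2 + T 3 := by
    unfold F
    have t0 : c.cf 0 = T 0 := by
      simp only [hT, cf, tA, tD, if_true, mul_zero, add_zero]
    have tm : ∀ m, m = 1 ∨ m = 2 ∨ m = 3 → c.cf m * c.pat (c.p * k + j + (4 - m)) = T m := by
      intro m hm
      simp only [hT]
      split_ifs with hmS
      · exact term_eq hp k j m hj hm hmS
      · exact zero_le hmS _
    rw [t0, ← tm 1 (by tauto), ← tm 2 (by tauto), ← tm 3 (by tauto)]
  have hP : c.pat (c.p * k + j) * c.pat (c.p * k + j + 4) = T i := by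
    rw [pat_eq (by omega) k j (by omega), add_assoc, pat_eq (by omega) k (j + 4) (by omega),
      ← zpow_add₀ (by norm_num)]
    simp only [hT, if_pos hiS]
    congr 1
    rw [← hA, ← hD]
    ring
  have hTn : ∀ m, 0 ≤ T m := by
    intro m
    simp only [hT]
    split_ifs <;> positivity
  have hTi : 0 < T i := by
    simp only [hT, if_pos hiS]
    positivity
  set q : ℝ := 1 / 2 ^ (c.p * k) with hq
  have hq0 : 0 < q := by positivity
  have hTm : ∀ m, m ≠ i → T m ≤ T i * q := by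
    intro m hm
    by_cases hmS : m ∈ bits c.S
    · rcases halt m hmS with h | ⟨h1, h2⟩
      · exact absurd h hm
      · simp only [hT, if_pos hmS, if_pos hiS]
        have e : q = (2 : ℝ) ^ (-((c.p : ℤ) * k)) := by
          rw [hq, zpow_neg, one_div, ← Nat.cast_mul, zpow_natCast]
        rw [e, ← zpow_add₀ (by norm_num)]
        apply zpow_le_zpow_right₀ (by norm_num)
        have hk : (0 : ℤ) ≤ k := Int.natCast_nonneg k
        nlinarith [mul_le_mul_of_nonneg_left h2 hk]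
    · have : T m = 0 := by simp only [hT, if_neg hmS]
      rw [this]
      positivity
  have hi3 : i ≤ 3 := hS3 i hiS
  have hsum : T i ≤ T 0 + T 1 + T 2 + T 3 ∧ T 0 + T 1 + T 2 + T 3 ≤ T i * (1 + 3 * q) := by
    have n0 := hTn 0
    have n1 := hTn 1
    have n2 := hTn 2
    have n3 := hTn 3
    have hc : i = 0 ∨ i = 1 ∨ i = 2 ∨ i = 3 := by omega
    rcases hc with hc | hc | hc | hc
    · rw [hc] at hTm ⊢
      have a1 := hTm 1 (by norm_num)
      have a2 := hTm 2 (by norm_num)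
      have a3 := hTm 3 (by norm_num)
      constructor <;> nlinarith
    · rw [hc] at hTm ⊢
      have a1 := hTm 0 (by norm_num)
      have a2 := hTm 2 (by norm_num)
      have a3 := hTm 3 (by norm_num)
      constructor <;> nlinarith
    · rw [hc] at hTm ⊢
      have a1 := hTm 0 (by norm_num)
      have a2 := hTm 1 (by norm_num)
      have a3 := hTm 3 (by norm_num)
      constructor <;> nlinarith
    · rw [hc] at hTm ⊢
      have a1 := hTm 0 (by norm_num)
      have a2 := hTm 1 (by norm_num)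
      have a3 := hTm 2 (by norm_num)
      constructor <;> nlinarith
  rw [hF, hP]
  refine ⟨hsum.1, hsum.2.trans ?_⟩
  refine mul_le_mul_of_nonneg_left ?_ hTi.le
  have hexp := Real.add_one_le_exp (3 * 2 ^ c.p / 2 ^ (c.p * k + j) : ℝ)
  refine le_trans ?_ hexp
  have hq2 : q ≤ 2 ^ c.p / 2 ^ (c.p * k + j) := by
    rw [hq, div_le_div_iff₀ (by positivity) (by positivity), one_mul, ← pow_add]
    exact pow_le_pow_right₀ (by norm_num) (by omega)
  have e3 : (3 * 2 ^ c.p / 2 ^ (c.p * k + j) : ℝ) = 3 * (2 ^ c.p / 2 ^ (c.p * k + j)) := by ring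
  rw [e3]
  linarith

/-- The solution. -/
theorem exists_sol (h : c.ok = true) :
    ∃ x : ℕ → ℝ, (∀ n, 0 < x n) ∧
      (∀ n, x n * x (n + 4) = Shadow.F (c.cf 0) (c.cf 1) (c.cf 2) (c.cf 3) x n) ∧
      ¬∃ M : ℝ, ∀ n, x n ≤ M := by
  obtain ⟨x, hx, hr, hb⟩ := Shadow.exists_sol (c.cf_nonneg 0) (c.cf_nonneg 1) (c.cf_nonneg 2)
    (c.cf_nonneg 3) c.pat_pos (by positivity : (0 : ℝ) ≤ 3 * 2 ^ c.p)
    (fun n => (both h n).1) (fun n => (both h n).2)
  refine ⟨x, hx, hr, ?_⟩
  rintro ⟨M, hM⟩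
  obtain ⟨R, hR0, hb⟩ : ∃ R : ℝ, 0 < R ∧ ∀ n, c.pat n ≤ x n * R := ⟨_, Real.exp_pos _, hb⟩
  simp only [ok, Bool.and_eq_true, decide_eq_true_eq, List.any_eq_true] at h
  obtain ⟨⟨⟨hp, d, hd, hd1⟩, -⟩, -⟩ := h
  obtain ⟨j, hj, rfl⟩ := List.getElem_of_mem hd
  rw [List.length_take] at hj
  have hjp : j < c.p := by omega
  have hjD : j < c.D.length := by omega
  rw [List.getElem_take] at hd1
  obtain ⟨k, hk⟩ := pow_unbounded_of_one_lt (M * R / (2 : ℝ) ^ (c.A.getD j 0))
    (show (1 : ℝ) < 2 by norm_num)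
  have h2 : (0 : ℝ) < (2 : ℝ) ^ (c.A.getD j 0) := by positivity
  rw [div_lt_iff₀ h2] at hk
  have h1 := hb (c.p * k + j)
  have e : c.pat (c.p * k + j) = (2 : ℝ) ^ (c.A.getD j 0) * (2 : ℝ) ^ ((k : ℤ) * c.D.getD j 0) := by
    unfold pat
    rw [Nat.mul_add_mod, Nat.mod_eq_of_lt hjp, Nat.mul_add_div (by omega), Nat.div_eq_of_lt hjp,
      add_zero, zpow_add₀ (by norm_num)]
  have h3 : (2 : ℝ) ^ k ≤ (2 : ℝ) ^ ((k : ℤ) * c.D.getD j 0) := by
    rw [← zpow_natCast]
    apply zpow_le_zpow_right₀ (by norm_num)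
    rw [List.getD_eq_getElem _ _ hjD]
    have hk0 : (0 : ℤ) ≤ k := Int.natCast_nonneg k
    nlinarith
  have h4 := mul_le_mul_of_nonneg_right (hM (c.p * k + j)) hR0.le
  rw [e] at h1
  nlinarith [mul_le_mul_of_nonneg_left h3 h2.le]

/-- The case is unbounded. -/
theorem unb (h : c.ok = true) : ¬BoundedOnly (fs c.S) (fs 16) := by
  intro hB
  obtain ⟨x, hp, hr, hu⟩ := exists_sol h
  have h3 : ∀ k ∈ bits c.S, k ≤ 3 := by
    simp only [ok, Bool.and_eq_true, List.all_eq_true, Nat.ble_eq] at h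
    exact h.1.2
  have e2 : fs 16 = {4} := by decide
  set b : Fin 5 → ℝ := fun i => c.cf (i : ℕ) with hb
  have hbS : SupportedOn b (fs c.S) := by
    refine ⟨fun i hi => ?_, fun i hi => ?_⟩
    · simp only [hb, cf, if_pos (mem_fs hi)]
      positivity
    · have : (i : ℕ) ∉ bits c.S := by
        intro hcon
        obtain ⟨i', hi', hi''⟩ := mem_bits hcon
        rw [Fin.ext hi'] at hi''
        exact hi hi''
      simp only [hb, cf, if_neg this]
  have hBT : SupportedOn (![0, 0, 0, 0, 1] : Fin 5 → ℝ) (fs 16) := by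
    rw [e2]
    refine ⟨fun i hi => ?_, fun i hi => ?_⟩ <;> fin_cases i <;> simp_all
  have b4 : b 4 = 0 := by
    have : (4 : ℕ) ∉ bits c.S := fun hcon => by
      have := h3 4 hcon
      omega
    show c.cf 4 = 0
    unfold cf
    rw [if_neg this]
  refine hu (hB b ![0, 0, 0, 0, 1] hbS hBT x ⟨fun n _ => (hp n).le, fun n => ?_, fun n => ?_⟩)
  · simp only [lin]
    have := hp n
    simp
    exact this
  · have hl : lin ![0, 0, 0, 0, 1] x n = x n := by simp [lin]
    rw [hl, eq_div_iff (hp n).ne']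
    have := hr n
    simp only [Shadow.F] at this
    have l : lin b x n = c.cf 0 + c.cf 1 * x (n + 3) + c.cf 2 * x (n + 2) + c.cf 3 * x (n + 1) := by
      simp only [lin, b4]
      simp only [hb]
      norm_num
    rw [l, ← this, mul_comm]

end IPat

end Pool.Agent.RatRec
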