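import Pool.Agent.Lib_helper96.RatU.Ex

/-!
Approximate solutions of `x_n x_(n-4) = b0 + b1 x_(n-1) + b2 x_(n-2) + b3 x_(n-3)` with a summable
defect are shadowed by solutions: the recurrence is run backward, then compactness.
-/

set_option autoImplicit false

open Filter Topology

namespace Pool.Agent.RatRec

namespace Shadow

/-- The right hand side. -/
def F (b0 b1 b2 b3 : ℝ) (x : ℕ → ℝ) (n : ℕ) : ℝ :=
  b0 + b1 * x (n + 3) + b2 * x (n + 2) + b3 * x (n + 1)

/-- The error factor. -/
noncomputable def E (C : ℝ) (n : ℕ) : ℝ := Real.exp (C / 2 ^ n)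

lemma E_pos (C : ℝ) (n : ℕ) : 0 < E C n := Real.exp_pos _

lemma one_le_E {C : ℝ} (hC : 0 ≤ C) (n : ℕ) : 1 ≤ E C n := by
  have : 0 ≤ C / 2 ^ n := by positivity
  exact Real.one_le_exp this

lemma E_anti {C : ℝ} (hC : 0 ≤ C) (n k : ℕ) : E C (n + k) ≤ E C n := by
  unfold E
  rw [Real.exp_le_exp]
  gcongr
  · norm_num
  · omega

lemma E_step {D : ℝ} (hD : 0 ≤ D) (n : ℕ) :
    E (3 * D) (n + 1) * E (3 * D) (n + 4) * Real.exp (D / 2 ^ n) ≤ E (3 * D) n := by
  unfold E
  rw [← Real.exp_add, ← Real.exp_add, Real.exp_le_exp, pow_add, pow_add]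
  have h : 0 < (2 : ℝ) ^ n := by positivity
  have e1 : 3 * D / (2 ^ n * 2 ^ 1) = (3 / 2) * (D / 2 ^ n) := by field_simp
  have e2 : 3 * D / (2 ^ n * 2 ^ 4) = (3 / 16) * (D / 2 ^ n) := by field_simp; norm_num
  have e3 : 3 * D / 2 ^ n = 3 * (D / 2 ^ n) := by ring
  rw [e1, e2, e3]
  have : 0 ≤ D / 2 ^ n := by positivity
  linarith

/-- The bounds. -/
def Bd (p : ℕ → ℝ) (C : ℝ) (x : ℕ → ℝ) : Prop :=
  ∀ n, p n / E C n ≤ x n ∧ x n ≤ p n * E C n

variable {b0 b1 b2 b3 : ℝ} {p : ℕ → ℝ} {D : ℝ}

lemma F_le (h0 : 0 ≤ b0) (h1 : 0 ≤ b1) (h2 : 0 ≤ b2) (h3 : 0 ≤ b3) (hp : ∀ n, 0 < p n)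
    {C : ℝ} (hC : 0 ≤ C) {x : ℕ → ℝ} (hx : Bd p C x) (n : ℕ) :
    F b0 b1 b2 b3 x n ≤ E C (n + 1) * F b0 b1 b2 b3 p n ∧
      F b0 b1 b2 b3 p n ≤ E C (n + 1) * F b0 b1 b2 b3 x n := by
  have e1 := one_le_E hC (n + 1)
  have e2 := E_anti hC (n + 1) 1
  have e3 := E_anti hC (n + 1) 2
  have up : ∀ k, k = n + 1 ∨ k = n + 2 ∨ k = n + 3 →
      x k ≤ E C (n + 1) * p k ∧ p k ≤ E C (n + 1) * x k := by
    intro k hk
    have hE : E C k ≤ E C (n + 1) := by
      rcases hk with rfl | rfl | rfl
      · exact le_rfl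
      · exact e2
      · exact e3
    have hEk := E_pos C k
    obtain ⟨l, u⟩ := hx k
    rw [div_le_iff₀ hEk] at l
    have hpk := hp k
    have hxk : 0 < x k := by
      by_contra hcon
      have : x k * E C k ≤ 0 := mul_nonpos_of_nonpos_of_nonneg (not_lt.1 hcon) hEk.le
      linarith
    constructor
    · nlinarith
    · nlinarith
  have u1 := up (n + 1) (by tauto)
  have u2 := up (n + 2) (by tauto)
  have u3 := up (n + 3) (by tauto)
  unfold F
  constructor
  · nlinarith [mul_le_mul_of_nonneg_left u1.1 h3, mul_le_mul_of_nonneg_left u2.1 h2,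
      mul_le_mul_of_nonneg_left u3.1 h1, mul_le_mul_of_nonneg_right e1 h0]
  · nlinarith [mul_le_mul_of_nonneg_left u1.2 h3, mul_le_mul_of_nonneg_left u2.2 h2,
      mul_le_mul_of_nonneg_left u3.2 h1, mul_le_mul_of_nonneg_right e1 h0]

lemma Bd.pos {C : ℝ} (hp : ∀ n, 0 < p n) {x : ℕ → ℝ} (hx : Bd p C x) (n : ℕ) : 0 < x n :=
  (div_pos (hp n) (E_pos C n)).trans_le (hx n).1

/-- Backward induction. -/
lemma back (h0 : 0 ≤ b0) (h1 : 0 ≤ b1) (h2 : 0 ≤ b2) (h3 : 0 ≤ b3) (hp : ∀ n, 0 < p n)
    (hD : 0 ≤ D) (hlo : ∀ n, p n * p (n + 4) ≤ F b0 b1 b2 b3 p n)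
    (hhi : ∀ n, F b0 b1 b2 b3 p n ≤ p n * p (n + 4) * Real.exp (D / 2 ^ n)) (N k : ℕ) :
    ∃ x : ℕ → ℝ, Bd p (3 * D) x ∧
      ∀ n, n < N → N ≤ n + k → x n * x (n + 4) = F b0 b1 b2 b3 x n := by
  have hC : 0 ≤ 3 * D := by linarith
  induction k with
  | zero =>
    refine ⟨p, fun n => ⟨?_, ?_⟩, fun n h h' => by omega⟩
    · exact div_le_self (hp n).le (one_le_E hC n)
    · exact le_mul_of_one_le_right (hp n).le (one_le_E hC n)
  | succ k ih =>
    obtain ⟨x, hx, hr⟩ := ih
    by_cases hk : k + 1 ≤ N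
    · set m := N - (k + 1) with hm
      refine ⟨Function.update x m (F b0 b1 b2 b3 x m / x (m + 4)), ?_, ?_⟩
      · intro n
        by_cases hn : n = m
        · subst hn
          rw [Function.update_self]
          have hF := F_le h0 h1 h2 h3 hp hC hx m
          have hx4 := hx (m + 4)
          have hp4 := hx.pos hp (m + 4)
          have hpm := hp m
          have hpm4 := hp (m + 4)
          have E1 := E_pos (3 * D) (m + 1)
          have E4 := E_pos (3 * D) (m + 4)
          have E0 := E_pos (3 * D) m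
          have hst := E_step hD m
          have hexp := Real.exp_pos (D / 2 ^ m)
          have hexp1 : 1 ≤ Real.exp (D / 2 ^ m) := Real.one_le_exp (by positivity)
          have hE : E (3 * D) (m + 1) * E (3 * D) (m + 4) ≤ E (3 * D) m := by
            refine le_trans ?_ hst
            exact le_mul_of_one_le_right (by positivity) hexp1
          have hl := (div_le_iff₀ E4).1 hx4.1
          constructor
          · rw [div_le_div_iff₀ E0 hp4]
            calc p m * x (m + 4) ≤ p m * (p (m + 4) * E (3 * D) (m + 4)) :=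
                  mul_le_mul_of_nonneg_left hx4.2 hpm.le
              _ = (p m * p (m + 4)) * E (3 * D) (m + 4) := by ring
              _ ≤ F b0 b1 b2 b3 p m * E (3 * D) (m + 4) :=
                  mul_le_mul_of_nonneg_right (hlo m) E4.le
              _ ≤ (E (3 * D) (m + 1) * F b0 b1 b2 b3 x m) * E (3 * D) (m + 4) :=
                  mul_le_mul_of_nonneg_right hF.2 E4.le
              _ = F b0 b1 b2 b3 x m * (E (3 * D) (m + 1) * E (3 * D) (m + 4)) := by ring
              _ ≤ F b0 b1 b2 b3 x m * E (3 * D) m := by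
                  refine mul_le_mul_of_nonneg_left hE ?_
                  have a1 := hx.pos hp (m + 1)
                  have a2 := hx.pos hp (m + 2)
                  have a3 := hx.pos hp (m + 3)
                  unfold F
                  positivity
          · rw [div_le_iff₀ hp4]
            calc F b0 b1 b2 b3 x m ≤ E (3 * D) (m + 1) * F b0 b1 b2 b3 p m := hF.1
              _ ≤ E (3 * D) (m + 1) * (p m * p (m + 4) * Real.exp (D / 2 ^ m)) :=
                  mul_le_mul_of_nonneg_left (hhi m) E1.le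
              _ ≤ E (3 * D) (m + 1) * (p m * (x (m + 4) * E (3 * D) (m + 4)) *
                    Real.exp (D / 2 ^ m)) := by
                  refine mul_le_mul_of_nonneg_left ?_ E1.le
                  refine mul_le_mul_of_nonneg_right ?_ hexp.le
                  exact mul_le_mul_of_nonneg_left hl hpm.le
              _ = p m * x (m + 4) * (E (3 * D) (m + 1) * E (3 * D) (m + 4) *
                    Real.exp (D / 2 ^ m)) := by ring
              _ ≤ p m * x (m + 4) * E (3 * D) m :=
                  mul_le_mul_of_nonneg_left hst (by positivity)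
              _ = p m * E (3 * D) m * x (m + 4) := by ring
        · rw [Function.update_of_ne hn]
          exact hx n
      · intro n hn hn'
        have hx4 := (hx.pos hp (m + 4)).ne'
        by_cases hnm : n = m
        · subst hnm
          unfold F
          rw [Function.update_self, Function.update_of_ne (by omega),
            Function.update_of_ne (by omega), Function.update_of_ne (by omega),
            Function.update_of_ne (by omega)]
          rw [div_mul_cancel₀ _ hx4]
        · have hlt : m < n := by omega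
          have := hr n hn (by omega)
          unfold F at this ⊢
          rw [Function.update_of_ne (by omega), Function.update_of_ne (by omega),
            Function.update_of_ne (by omega), Function.update_of_ne (by omega),
            Function.update_of_ne (by omega)]
          exact this
    · exact ⟨x, hx, fun n hn hn' => hr n hn (by omega)⟩

/-- The shadowing theorem. -/
theorem exists_sol (h0 : 0 ≤ b0) (h1 : 0 ≤ b1) (h2 : 0 ≤ b2) (h3 : 0 ≤ b3) (hp : ∀ n, 0 < p n)
    (hD : 0 ≤ D) (hlo : ∀ n, p n * p (n + 4) ≤ F b0 b1 b2 b3 p n)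
    (hhi : ∀ n, F b0 b1 b2 b3 p n ≤ p n * p (n + 4) * Real.exp (D / 2 ^ n)) :
    ∃ x : ℕ → ℝ, (∀ n, 0 < x n) ∧ (∀ n, x n * x (n + 4) = F b0 b1 b2 b3 x n) ∧
      ∀ n, p n ≤ x n * Real.exp (3 * D) := by
  have hC : 0 ≤ 3 * D := by linarith
  choose X hX hr using fun N => back h0 h1 h2 h3 hp hD hlo hhi N N
  have hK : IsCompact (Set.pi Set.univ (fun n => Set.Icc (p n / E (3 * D) n) (p n * E (3 * D) n))) :=
    isCompact_univ_pi fun n => isCompact_Icc
  have hXK : ∀ N, X N ∈ Set.pi Set.univ
      (fun n => Set.Icc (p n / E (3 * D) n) (p n * E (3 * D) n)) := fun N n _ => hX N n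
  obtain ⟨x, hx, φ, hφ, hlim⟩ := hK.tendsto_subseq hXK
  have hpt : ∀ n, Tendsto (fun k => X (φ k) n) atTop (𝓝 (x n)) := fun n =>
    (tendsto_pi_nhds.1 hlim) n
  have hB : Bd p (3 * D) x := fun n => hx n (Set.mem_univ n)
  refine ⟨x, hB.pos hp, fun n => ?_, fun n => ?_⟩
  · have t1 : Tendsto (fun k => X (φ k) n * X (φ k) (n + 4)) atTop (𝓝 (x n * x (n + 4))) :=
      (hpt n).mul (hpt (n + 4))
    have t2 : Tendsto (fun k => F b0 b1 b2 b3 (X (φ k)) n) atTop (𝓝 (F b0 b1 b2 b3 x n)) := by
      unfold F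
      exact ((tendsto_const_nhds.add ((hpt (n + 3)).const_mul b1)).add
        ((hpt (n + 2)).const_mul b2)).add ((hpt (n + 1)).const_mul b3)
    refine tendsto_nhds_unique (t1.congr' ?_) t2
    filter_upwards [eventually_gt_atTop n] with k hk
    have : k ≤ φ k := hφ.id_le k
    exact hr (φ k) n (by omega) (by omega)
  · have hl := (div_le_iff₀ (E_pos (3 * D) n)).1 (hB n).1
    refine hl.trans ?_
    refine mul_le_mul_of_nonneg_left ?_ (hB.pos hp n).le
    unfold E
    rw [Real.exp_le_exp]
    exact div_le_self hC (one_le_pow₀ (by norm_num))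

end Shadow

end Pool.Agent.RatRec
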